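import Pool.Agent.helper51.DP.PVI
import Pool.Agent.helper64.TP.SpecF
import Pool.Agent.helper64.TP.Basic
/-!
# Module dp:PVI: a pivotal set of an arm event gives four arms around it
-/

namespace TP

open DP

theorem PVI (hPVC : PVC_stmt) (hTC : TC_stmt) (hAM : AM_stmt) : PVI_stmt := by
  intro j b B x y m n₁ n₂ n r R hj hev hB hrR hmn hnn hloc hpiv
  obtain ⟨b', b'', hbb, h1, h2⟩ := hpiv
  have h1 : ar j (col b') x m n := h1
  have h2 : ¬ ar j (col b'') x m n := h2
  have hy := hloc y (by rw [sd_self]; omega)
  have hcol : ∀ w, br w ∉ B → col b' w = col b w ∧ col b'' w = col b w := fun w hw =>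
    ⟨col_congr (hbb (br w) hw).1, col_congr (hbb (br w) hw).2⟩
  have hBloc : ∀ w, br w ∈ B → n₁ < sd x w ∧ sd x w < n₂ ∧ sd x w < n := by
    intro w hw
    have h3 : sd y (br w) ≤ r := hB hw
    have h4 := sd_triangle y (br w) w
    have h5 := sd_br_le w
    rw [sd_comm] at h5
    exact hloc w (by omega)
  have hW : box y R ⊆ ann x m n := by
    intro w hw
    have := hloc w hw
    exact ⟨by omega, by omega⟩
  have farm : ∀ u, u ∈ bd x m → R ≤ sd y u := by
    intro u hu
    by_contra h
    have h3 := hloc u (by omega)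
    have h4 : sd x u = m := hu
    omega
  have farn : ∀ u, u ∈ bd x n → R ≤ sd y u := by
    intro u hu
    by_contra h
    have h3 := hloc u (by omega)
    have h4 : sd x u = n := hu
    omega
  refine ⟨?_, ?_, ?_⟩
  · refine (PVI_congr (fun v hv => ?_) j).1 (hAM (col b') j x m m n₁ n hj le_rfl hmn hnn h1)
    refine (hcol v fun hvB => ?_).1
    have h3 := hBloc v hvB
    have h4 : sd x v ≤ n₁ := hv.2
    omega
  · rcases hj with rfl | rfl
    · -- two arms
      have h1' : two (col b') x m n := h1
      have h2' : ¬ two (col b'') x m n := h2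
      have h3 : ∃ k, arm (col b') k x m n ∧ ¬ arm (col b'') k x m n := by
        by_contra hcon
        push Not at hcon
        exact h2' ⟨hcon true h1'.1, hcon false h1'.2⟩
      obtain ⟨k, ⟨u, hu, v, hv, huv⟩, hk⟩ := h3
      have h4 : ¬ Conn (col b'') k (ann x m n) u v := fun h => hk ⟨u, hu, v, hv, h⟩
      have h5 := hPVC b b' b'' B (ann x m n) k y r R u v hB (by omega) hW (farm u hu) (farn v hv)
        hbb huv h4
      cases k
      · exact (hTC (col b) y (r + 2) R hev (by omega) hrR).1 h5
      · exact h5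
    · -- four arms
      have h1' : four (col b') x m n := h1
      have h2' : ¬ four (col b'') x m n := h2
      obtain ⟨u, hu, v, hv, ⟨u', hu', hc1⟩, ⟨v', hv', hc2⟩, hc3⟩ := h1'
      by_cases e1 : Conn (col b'') true (ann x m n) u u'
      · by_cases e2 : Conn (col b'') true (ann x m n) v v'
        · by_cases e3 : Conn (col b'') true (ann x m n) u v
          · exact hPVC b b'' b' B (ann x m n) true y r R u v hB (by omega) hW (farm u hu)
              (farm v hv) (fun w hw => ⟨(hbb w hw).2, (hbb w hw).1⟩) e3 hc3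
          · exact absurd ⟨u, hu, v, hv, ⟨u', hu', e1⟩, ⟨v', hv', e2⟩, e3⟩ h2'
        · exact hPVC b b' b'' B (ann x m n) true y r R v v' hB (by omega) hW (farm v hv)
            (farn v' hv') hbb hc2 e2
      · exact hPVC b b' b'' B (ann x m n) true y r R u u' hB (by omega) hW (farm u hu)
          (farn u' hu') hbb hc1 e1
  · intro hn
    refine (PVI_congr (fun v hv => ?_) j).1
      (hAM (col b') j x m n₂ n n hj (by omega) hn le_rfl h1)
    refine (hcol v fun hvB => ?_).1
    have h3 := hBloc v hvB
    have h4 : n₂ ≤ sd x v := hv.1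
    omega

end TP
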